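import Pool.Agent.J4H87.K5.Stm

set_option autoImplicit false

namespace Pool.Agent.J4H62.K5

open Finset Pool.Agent.J4H87.K5
open scoped Classical

/-- the degree -/
noncomputable def dg {n : ℕ} (B : Finset (Sym2 (Fin n))) (x : Fin n) : ℕ :=
  ((univ : Finset (Fin n)).filter (fun y => s(x, y) ∈ B)).card

/-- ordered pairs -/
theorem card_pairs {n : ℕ} (B : Finset (Sym2 (Fin n))) :
    ((univ : Finset (Fin n × Fin n)).filter (fun z => s(z.1, z.2) ∈ B)).card ≤ 2 * B.card := by
  have h1 : ((univ : Finset (Fin n × Fin n)).filter (fun z => s(z.1, z.2) ∈ B)).card =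
      ∑ e ∈ B, (((univ : Finset (Fin n × Fin n)).filter
        (fun z => s(z.1, z.2) ∈ B)).filter (fun z => s(z.1, z.2) = e)).card := by
    refine Finset.card_eq_sum_card_fiberwise ?_
    intro z hz
    simpa using hz
  rw [h1]
  have h2 : ∀ e ∈ B, (((univ : Finset (Fin n × Fin n)).filter
      (fun z => s(z.1, z.2) ∈ B)).filter (fun z => s(z.1, z.2) = e)).card ≤ 2 := by
    intro e _
    induction e using Sym2.ind with
    | _ a b =>
      refine (Finset.card_le_card (t := {(a, b), (b, a)}) ?_).trans Finset.card_le_two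
      intro z hz
      simp only [Finset.mem_filter, Finset.mem_univ, true_and] at hz
      have h3 := hz.2
      rw [Sym2.eq_iff] at h3
      rw [Finset.mem_insert, Finset.mem_singleton]
      rcases h3 with ⟨h4, h5⟩ | ⟨h4, h5⟩
      · left; exact Prod.ext h4 h5
      · right; exact Prod.ext h4 h5
  refine (Finset.sum_le_sum h2).trans ?_
  simp [mul_comm]

theorem sum_dg {n : ℕ} (B : Finset (Sym2 (Fin n))) : ∑ x, dg B x ≤ 2 * B.card := by
  refine le_trans (le_of_eq ?_) (card_pairs B)
  have h1 : ((univ : Finset (Fin n × Fin n)).filter (fun z => s(z.1, z.2) ∈ B)).card =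
      ∑ x : Fin n, ∑ y : Fin n, if s(x, y) ∈ B then 1 else 0 := by
    rw [Finset.card_filter, Fintype.sum_prod_type]
  rw [h1]
  refine Finset.sum_congr rfl fun x _ => ?_
  rw [dg, Finset.card_filter]

/-- paths of length 3 by the middle edge -/
theorem P4_eq {n : ℕ} (B : Finset (Sym2 (Fin n))) :
    P4 B = ∑ y : Fin n, ∑ z : Fin n, if s(y, z) ∈ B then dg B y * dg B z else 0 := by
  have h0 : P4 B = ((univ : Finset ((Fin n × Fin n) × (Fin n × Fin n))).filter
      (fun q => s(q.1.1, q.1.2) ∈ B ∧ s(q.1.1, q.2.1) ∈ B ∧ s(q.1.2, q.2.2) ∈ B)).card := by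
    rw [P4]
    refine Finset.card_bij' (fun x _ => ((x 1, x 2), (x 0, x 3)))
      (fun q _ => ![q.2.1, q.1.1, q.1.2, q.2.2]) ?_ ?_ ?_ ?_
    · intro x hx
      simp only [Finset.mem_filter, Finset.mem_univ, true_and] at hx ⊢
      refine ⟨hx.2.1, ?_, hx.2.2⟩
      rw [Sym2.eq_swap]; exact hx.1
    · intro q hq
      simp only [Finset.mem_filter, Finset.mem_univ, true_and] at hq ⊢
      refine ⟨?_, hq.1, hq.2.2⟩
      rw [Sym2.eq_swap]; exact hq.2.1
    · intro x _
      funext i
      fin_cases i <;> rfl
    · intro q _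
      rfl
  rw [h0, Finset.card_filter, Fintype.sum_prod_type, Fintype.sum_prod_type]
  refine Finset.sum_congr rfl fun y _ => Finset.sum_congr rfl fun z _ => ?_
  rw [Fintype.sum_prod_type]
  split_ifs with h
  · simp only [dg, Finset.card_filter, Finset.sum_mul_sum]
    refine Finset.sum_congr rfl fun a _ => Finset.sum_congr rfl fun b _ => ?_
    by_cases h1 : s(y, a) ∈ B <;> by_cases h2 : s(z, b) ∈ B <;> simp [h, h1, h2]
  · simp [h]

theorem layer (m K : ℕ) (h : m ≤ K) : m = ∑ i ∈ Finset.range K, if i < m then 1 else 0 := by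
  rw [← Finset.card_filter]
  have : (Finset.range K).filter (fun i => i < m) = Finset.range m := by
    ext i
    simp only [Finset.mem_filter, Finset.mem_range]
    omega
  rw [this, Finset.card_range]

theorem t_PP : S_PP := by
  intro n b B G D α β hBG hb hα hβ hD hG
  obtain ⟨hG1, hG2⟩ := hG
  set K := ⌊D⌋₊ with hK
  have hKD : (K : ℝ) ≤ D := Nat.floor_le hD
  have hdK : ∀ x, dg B x ≤ K := by
    intro x
    refine Nat.le_floor ?_
    refine le_trans ?_ (hG1 x)
    have : dg B x ≤ ((univ : Finset (Fin n)).filter (fun y => s(x, y) ∈ G)).card := by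
      refine Finset.card_le_card ?_
      intro y hy
      simp only [Finset.mem_filter, Finset.mem_univ, true_and] at hy ⊢
      exact hBG hy
    exact_mod_cast this
  let X : ℕ → Finset (Fin n) := fun i => univ.filter fun x => i < dg B x
  have hX : ∑ i ∈ Finset.range K, ((X i).card : ℝ) ≤ 2 * b := by
    have h1 : ∑ i ∈ Finset.range K, (X i).card = ∑ x, dg B x := by
      simp only [X, Finset.card_filter]
      rw [Finset.sum_comm]
      exact Finset.sum_congr rfl fun x _ => (layer _ _ (hdK x)).symm
    have h2 := sum_dg B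
    rw [← h1] at h2
    have h3 : ((∑ i ∈ Finset.range K, (X i).card : ℕ) : ℝ) ≤ 2 * (B.card : ℝ) := by
      exact_mod_cast h2
    rw [Nat.cast_sum] at h3
    refine h3.trans ?_
    have : (B.card : ℝ) ≤ b := by exact_mod_cast hb
    linarith
  have hP : (P4 B : ℝ) ≤ ∑ i ∈ Finset.range K, ∑ j ∈ Finset.range K,
      ((((X i) ×ˢ (X j)).filter (fun z => s(z.1, z.2) ∈ G)).card : ℝ) := by
    have h1 : P4 B ≤ ∑ i ∈ Finset.range K, ∑ j ∈ Finset.range K,
        (((X i) ×ˢ (X j)).filter (fun z => s(z.1, z.2) ∈ G)).card := by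
      rw [P4_eq]
      have h2 : ∀ i j, (((X i) ×ˢ (X j)).filter (fun z => s(z.1, z.2) ∈ G)).card =
          ∑ y : Fin n, ∑ z : Fin n,
            if s(y, z) ∈ G then (if i < dg B y then 1 else 0) * (if j < dg B z then 1 else 0)
            else 0 := by
        intro i j
        have h3 : ((X i) ×ˢ (X j)).filter (fun z => s(z.1, z.2) ∈ G) =
            (univ : Finset (Fin n × Fin n)).filter
              (fun z => (i < dg B z.1 ∧ j < dg B z.2) ∧ s(z.1, z.2) ∈ G) := by
          ext z
          simp [X]
        rw [h3, Finset.card_filter, Fintype.sum_prod_type]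
        refine Finset.sum_congr rfl fun y _ => Finset.sum_congr rfl fun z _ => ?_
        by_cases h4 : s(y, z) ∈ G <;> by_cases h5 : i < dg B y <;> by_cases h6 : j < dg B z <;>
          simp [h4, h5, h6]
      calc ∑ y : Fin n, ∑ z : Fin n, (if s(y, z) ∈ B then dg B y * dg B z else 0)
          ≤ ∑ y : Fin n, ∑ z : Fin n, (if s(y, z) ∈ G then dg B y * dg B z else 0) := by
            refine Finset.sum_le_sum fun y _ => Finset.sum_le_sum fun z _ => ?_
            split_ifs with h3 h4
            · exact le_rfl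
            · exact absurd (hBG h3) h4
            · exact Nat.zero_le _
            · exact le_rfl
        _ = ∑ y : Fin n, ∑ z : Fin n, ∑ i ∈ Finset.range K, ∑ j ∈ Finset.range K,
            (if s(y, z) ∈ G then (if i < dg B y then 1 else 0) * (if j < dg B z then 1 else 0)
            else 0) := by
            refine Finset.sum_congr rfl fun y _ => Finset.sum_congr rfl fun z _ => ?_
            split_ifs with h3
            · conv_lhs => rw [layer _ _ (hdK y), layer _ _ (hdK z), Finset.sum_mul_sum]
            · simp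
        _ = ∑ i ∈ Finset.range K, ∑ j ∈ Finset.range K, ∑ y : Fin n, ∑ z : Fin n,
            (if s(y, z) ∈ G then (if i < dg B y then 1 else 0) * (if j < dg B z then 1 else 0)
            else 0) := by
            have e1 : ∀ y : Fin n, ∑ z : Fin n, ∑ i ∈ Finset.range K, ∑ j ∈ Finset.range K,
                (if s(y, z) ∈ G then (if i < dg B y then 1 else 0) *
                  (if j < dg B z then 1 else 0) else 0) =
                ∑ i ∈ Finset.range K, ∑ j ∈ Finset.range K, ∑ z : Fin n,
                (if s(y, z) ∈ G then (if i < dg B y then 1 else 0) *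
                  (if j < dg B z then 1 else 0) else 0) := by
              intro y
              rw [Finset.sum_comm]
              exact Finset.sum_congr rfl fun i _ => Finset.sum_comm
            rw [Finset.sum_congr rfl fun y _ => e1 y, Finset.sum_comm]
            exact Finset.sum_congr rfl fun i _ => Finset.sum_comm
        _ = _ := Finset.sum_congr rfl fun i _ => Finset.sum_congr rfl fun j _ => (h2 i j).symm
        _ ≤ _ := le_rfl
    exact_mod_cast h1
  refine hP.trans ?_
  set σ := ∑ i ∈ Finset.range K, ((X i).card : ℝ) with hσ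
  have hσ0 : 0 ≤ σ := Finset.sum_nonneg fun i _ => Nat.cast_nonneg _
  calc ∑ i ∈ Finset.range K, ∑ j ∈ Finset.range K,
        ((((X i) ×ˢ (X j)).filter (fun z => s(z.1, z.2) ∈ G)).card : ℝ)
      ≤ ∑ i ∈ Finset.range K, ∑ j ∈ Finset.range K,
        (α * (X i).card * (X j).card + β * ((X i).card + (X j).card)) :=
        Finset.sum_le_sum fun i _ => Finset.sum_le_sum fun j _ => hG2 _ _
    _ = α * σ * σ + 2 * β * K * σ := by
        simp only [Finset.sum_add_distrib, mul_add, ← Finset.mul_sum, Finset.sum_const,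
          Finset.card_range, nsmul_eq_mul, ← hσ]
        rw [← Finset.sum_mul, ← Finset.mul_sum, ← hσ]
        ring
    _ ≤ 4 * α * (b : ℝ) ^ 2 + 4 * β * D * b := by
        have h1 : α * σ * σ ≤ α * (2 * b) * (2 * b) := by
          have := mul_le_mul hX hX hσ0 (by positivity : (0 : ℝ) ≤ 2 * b)
          nlinarith
        have h2 : 2 * β * K * σ ≤ 2 * β * D * (2 * b) := by
          have h3 : (K : ℝ) * σ ≤ D * (2 * b) := mul_le_mul hKD hX hσ0 hD
          nlinarith
        nlinarith

end Pool.Agent.J4H62.K5
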